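import Pool.Agent.H55.FFM.TP

/-!
# BAS: bases of a field over the image of an endomorphism
-/

set_option autoImplicit false

open Pool.Agent.H55.FFM

namespace Pool.Agent.H36.FFM

theorem of_basis {K F : Type} [Field K] [Field F] [Algebra K F] {E : ℕ}
    (b : Module.Basis (Fin E) K F) (a : F) :
    ∃! c : Fin E → K, a = ∑ i, algebraMap K F (c i) * b i := by
  refine ⟨fun i => b.repr a i, ?_, ?_⟩
  · have h := (b.sum_repr a).symm
    simp only [Algebra.smul_def] at h
    exact h
  · intro c hc
    have h : a = ∑ i, c i • b i := by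
      simp only [Algebra.smul_def]
      exact hc
    funext i
    rw [h, b.repr_sum_self]

theorem gen {K F : Type} [Field K] [Field F] [Algebra K F] (E : ℕ)
    (hE : Module.finrank K F = E) (h1 : 1 ≤ E) :
    (∃ b : Fin E → F, ∀ a : F, ∃! c : Fin E → K, a = ∑ i, algebraMap K F (c i) * b i) ∧
    ∀ b : Fin E → F, (∀ c : Fin E → K, ∑ i, algebraMap K F (c i) * b i = 0 → ∀ i, c i = 0) →
      ∀ a : F, ∃! c : Fin E → K, a = ∑ i, algebraMap K F (c i) * b i := by
  have hfin : FiniteDimensional K F := Module.finite_of_finrank_pos (by omega)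
  refine ⟨⟨_, of_basis (Module.finBasisOfFinrankEq K F hE)⟩, fun b hb => ?_⟩
  have hli : LinearIndependent K b := by
    refine Fintype.linearIndependent_iff.2 fun c hc => hb c ?_
    simp only [Algebra.smul_def] at hc
    exact hc
  have hne : Nonempty (Fin E) := ⟨⟨0, h1⟩⟩
  have h2 := of_basis (basisOfLinearIndependentOfCardEqFinrank hli
    (by rw [Fintype.card_fin, hE]))
  rw [coe_basisOfLinearIndependentOfCardEqFinrank] at h2
  exact h2

theorem pf_BAS : T_BAS := fun F _ τ E hE h1 => @gen F F _ _ τ.toAlgebra E hE h1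

end Pool.Agent.H36.FFM
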